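import Mathlib

set_option autoImplicit false

namespace Pool.Agent.U183.SG

open Set

variable {H : Type*} [NormedAddCommGroup H] [InnerProductSpace ℝ H] [CompleteSpace H]

/-- Krein's theorem: if the cone is normal then the dual cone is generating. -/
theorem dual_generating {P : Set H} (h0 : (0 : H) ∈ P) (hadd : ∀ x ∈ P, ∀ y ∈ P, x + y ∈ P)
    (hsmul : ∀ r : ℝ, 0 ≤ r → ∀ x ∈ P, r • x ∈ P) {c : ℝ} (hc : 0 < c)
    (hnorm : ∀ x y : H, x ∈ P → y - x ∈ P → ‖x‖ ≤ c * ‖y‖) (φ : H) :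
    ∃ φ₁ φ₂ : H, (∀ p ∈ P, 0 ≤ inner ℝ φ₁ p) ∧ (∀ p ∈ P, 0 ≤ inner ℝ φ₂ p) ∧ φ = φ₁ - φ₂ := by
  set C : ℝ := c * ‖φ‖ with hC
  have hC0 : 0 ≤ C := by positivity
  set S : H → Set ℝ := fun x =>
    {r | ∃ u ∈ P, ∃ w ∈ P, u - w ∈ P ∧ r = C * ‖x + u‖ - inner ℝ φ w} with hS
  have hlow : ∀ x, ∀ r ∈ S x, -(C * ‖x‖) ≤ r := by
    rintro x r ⟨u, hu, w, hw, huw, rfl⟩
    have h1 : inner ℝ φ w ≤ ‖φ‖ * ‖w‖ := real_inner_le_norm φ w
    have h2 : ‖w‖ ≤ c * ‖u‖ := hnorm w u hw huw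
    have h3 : ‖u‖ ≤ ‖x + u‖ + ‖x‖ := by
      calc ‖u‖ = ‖(x + u) - x‖ := by rw [add_sub_cancel_left]
        _ ≤ ‖x + u‖ + ‖x‖ := norm_sub_le _ _
    have h4 : ‖φ‖ * ‖w‖ ≤ C * ‖u‖ := by
      calc ‖φ‖ * ‖w‖ ≤ ‖φ‖ * (c * ‖u‖) := by gcongr
        _ = C * ‖u‖ := by rw [hC]; ring
    have h5 : C * ‖u‖ ≤ C * (‖x + u‖ + ‖x‖) := by gcongr
    linarith
  have hbdd : ∀ x, BddBelow (S x) := fun x => ⟨_, hlow x⟩
  have hmem : ∀ x, C * ‖x‖ ∈ S x := fun x =>
    ⟨0, h0, 0, h0, by simpa using h0, by simp⟩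
  have hne : ∀ x, (S x).Nonempty := fun x => ⟨_, hmem x⟩
  set N : H → ℝ := fun x => sInf (S x) with hN
  have hNadd : ∀ x y, N (x + y) ≤ N x + N y := by
    intro x y
    have h1 : ∀ a ∈ S x, ∀ b ∈ S y, N (x + y) ≤ a + b := by
      rintro a ⟨u, hu, w, hw, huw, rfl⟩ b ⟨u', hu', w', hw', huw', rfl⟩
      have h2 : C * ‖x + y + (u + u')‖ - inner ℝ φ (w + w') ∈ S (x + y) := by
        refine ⟨u + u', hadd u hu u' hu', w + w', hadd w hw w' hw', ?_, rfl⟩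
        have h3 := hadd _ huw _ huw'
        rwa [add_sub_add_comm]
      refine (csInf_le (hbdd _) h2).trans ?_
      rw [inner_add_right]
      have h4 : ‖x + y + (u + u')‖ ≤ ‖x + u‖ + ‖y + u'‖ := by
        rw [add_add_add_comm]
        exact norm_add_le _ _
      nlinarith
    have h2 : ∀ b ∈ S y, N (x + y) - b ≤ N x := fun b hb =>
      le_csInf (hne x) fun a ha => by linarith [h1 a ha b hb]
    have h3 : N (x + y) - N x ≤ N y := le_csInf (hne y) fun b hb => by linarith [h2 b hb]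
    linarith
  have hNhom_le : ∀ t : ℝ, 0 < t → ∀ x, N (t • x) ≤ t * N x := by
    intro t ht x
    have h1 : ∀ a ∈ S x, N (t • x) ≤ t * a := by
      rintro a ⟨u, hu, w, hw, huw, rfl⟩
      have h2 : C * ‖t • x + t • u‖ - inner ℝ φ (t • w) ∈ S (t • x) := by
        refine ⟨t • u, hsmul t ht.le u hu, t • w, hsmul t ht.le w hw, ?_, rfl⟩
        rw [← smul_sub]
        exact hsmul t ht.le _ huw
      refine (csInf_le (hbdd _) h2).trans (le_of_eq ?_)
      rw [← smul_add, norm_smul, Real.norm_of_nonneg ht.le, real_inner_smul_right]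
      ring
    have h2 : N (t • x) / t ≤ N x := le_csInf (hne x) fun a ha => by
      rw [div_le_iff₀ ht, mul_comm]
      exact h1 a ha
    rwa [div_le_iff₀ ht, mul_comm] at h2
  have hNhom : ∀ t : ℝ, 0 < t → ∀ x, N (t • x) = t * N x := by
    intro t ht x
    refine le_antisymm (hNhom_le t ht x) ?_
    have h1 := hNhom_le t⁻¹ (inv_pos.2 ht) (t • x)
    rw [smul_smul, inv_mul_cancel₀ ht.ne', one_smul] at h1
    calc t * N x ≤ t * (t⁻¹ * N (t • x)) := by gcongr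
      _ = N (t • x) := by field_simp
  have hN0 : N 0 = 0 := by
    have h1 := hNhom 2 (by norm_num) 0
    rw [smul_zero] at h1
    linarith
  obtain ⟨g, -, hg⟩ := exists_extension_of_le_sublinear (⟨⊥, 0⟩ : H →ₗ.[ℝ] ℝ) N hNhom hNadd (by
    rintro ⟨x, hx⟩
    have hx0 : x = 0 := by simpa using hx
    subst hx0
    change (0 : ℝ) ≤ N 0
    rw [hN0])
  have hNle : ∀ x, N x ≤ C * ‖x‖ := fun x => csInf_le (hbdd x) (hmem x)
  have hgb : ∀ x, ‖g x‖ ≤ C * ‖x‖ := by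
    intro x
    rw [Real.norm_eq_abs, abs_le]
    constructor
    · have h1 := (hg (-x)).trans (hNle (-x))
      rw [map_neg, norm_neg] at h1
      linarith
    · exact (hg x).trans (hNle x)
  set G : StrongDual ℝ H := g.mkContinuous C hgb with hG
  set φ₁ : H := (InnerProductSpace.toDual ℝ H).symm G with hφ₁
  have hφ : ∀ x, inner ℝ φ₁ x = g x := by
    intro x
    rw [hφ₁, InnerProductSpace.toDual_symm_apply]
    rfl
  have hkey : ∀ u ∈ P, ∀ w ∈ P, u - w ∈ P → inner ℝ φ w ≤ g u := by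
    intro u hu w hw huw
    have h1 : -(inner ℝ φ w) ∈ S (-u) := ⟨u, hu, w, hw, huw, by simp⟩
    have h2 := (hg (-u)).trans (csInf_le (hbdd _) h1)
    rw [map_neg] at h2
    linarith
  refine ⟨φ₁, φ₁ - φ, fun p hp => ?_, fun p hp => ?_, by abel⟩
  · rw [hφ]
    have := hkey p hp 0 h0 (by simpa using hp)
    simpa using this
  · rw [inner_sub_left, hφ]
    have := hkey p hp p hp (by simpa using h0)
    linarith

end Pool.Agent.U183.SG
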