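import Mathlib

set_option autoImplicit false
set_option linter.unusedSectionVars false

namespace Pool.Agent.U183.SG

open Filter Topology Set MeasureTheory

variable {E : Type*} [NormedAddCommGroup E] [InnerProductSpace ℂ E] [CompleteSpace E]

/-- A strongly continuous one-parameter family which is a semigroup on `[0, ∞)`. -/
structure IsSG (T : ℝ → E →L[ℂ] E) : Prop where
  zero : T 0 = 1
  add : ∀ s t, 0 ≤ s → 0 ≤ t → T (s + t) = T s * T t
  cont : ∀ v, Continuous fun t => T t v

/-- `v` is in the domain of the generator and `u` is its image. -/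
def Gen (T : ℝ → E →L[ℂ] E) (v u : E) : Prop :=
  HasDerivWithinAt (fun t => T t v) u (Ioi 0) 0

/-- `z` is in the resolvent set, with resolvent `R`. -/
def IsRes (T : ℝ → E →L[ℂ] E) (z : ℂ) (R : E →L[ℂ] E) : Prop :=
  (∀ w, Gen T (R w) (z • R w - w)) ∧ ∀ v u, Gen T v u → R (z • v - u) = v

namespace IsSG

variable {T : ℝ → E →L[ℂ] E}

theorem add_apply (hT : IsSG T) {s t : ℝ} (hs : 0 ≤ s) (ht : 0 ≤ t) (v : E) :
    T (s + t) v = T s (T t v) := by
  rw [hT.add s t hs ht]
  rfl

theorem zero_apply (hT : IsSG T) (v : E) : T 0 v = v := by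
  rw [hT.zero]
  rfl

theorem comm (hT : IsSG T) {s t : ℝ} (hs : 0 ≤ s) (ht : 0 ≤ t) (v : E) :
    T s (T t v) = T t (T s v) := by
  rw [← hT.add_apply hs ht, ← hT.add_apply ht hs, add_comm]

/-- Uniform bound on bounded intervals. -/
theorem bound_Icc (hT : IsSG T) (L : ℝ) : ∃ M : ℝ, 1 ≤ M ∧ ∀ t ∈ Icc 0 L, ‖T t‖ ≤ M := by
  obtain ⟨C, hC⟩ := banach_steinhaus (g := fun t : Icc (0 : ℝ) L => T t) (fun v => by
    obtain ⟨C, hC⟩ := isCompact_Icc.exists_bound_of_continuousOn (s := Icc (0 : ℝ) L)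
      (f := fun t => T t v) (hT.cont v).continuousOn
    exact ⟨C, fun i => hC i.1 i.2⟩)
  exact ⟨max C 1, le_max_right _ _, fun t ht => (hC ⟨t, ht⟩).trans (le_max_left _ _)⟩

theorem pow_nat (hT : IsSG T) {t : ℝ} (ht : 0 ≤ t) (n : ℕ) : T (n * t) = T t ^ n := by
  induction n with
  | zero => simp [hT.zero]
  | succ n ih =>
    have h1 : ((n + 1 : ℕ) : ℝ) * t = n * t + t := by push_cast; ring
    rw [h1, hT.add _ _ (by positivity) ht, ih, pow_succ]

theorem norm_pow_le' (A : E →L[ℂ] E) (n : ℕ) {M : ℝ} (hM : 1 ≤ M) (hA : ‖A‖ ≤ M) :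
    ‖A ^ n‖ ≤ M ^ n := by
  induction n with
  | zero =>
    rw [pow_zero, pow_zero]
    exact ContinuousLinearMap.norm_id_le
  | succ n ih =>
    rw [pow_succ, pow_succ]
    exact (norm_mul_le _ _).trans (mul_le_mul ih hA (norm_nonneg _) (by positivity))

/-- Exponential bound. -/
theorem exp_bound (hT : IsSG T) : ∃ M w : ℝ, 1 ≤ M ∧ 0 ≤ w ∧
    ∀ t, 0 ≤ t → ‖T t‖ ≤ M * Real.exp (w * t) := by
  obtain ⟨M, hM, hMb⟩ := hT.bound_Icc 1
  refine ⟨M, Real.log M, hM, Real.log_nonneg hM, fun t ht => ?_⟩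
  set n : ℕ := ⌊t⌋₊ with hn
  have h1 : (n : ℝ) ≤ t := Nat.floor_le ht
  have h2 : t < n + 1 := Nat.lt_floor_add_one t
  have h3 : T t = T (t - n) * T 1 ^ n := by
    have h4 : t = (t - n) + n * 1 := by ring
    conv_lhs => rw [h4]
    rw [hT.add _ _ (by linarith) (by positivity), hT.pow_nat zero_le_one]
  rw [h3]
  refine (norm_mul_le _ _).trans ?_
  have h5 : ‖T (t - n)‖ ≤ M := hMb _ ⟨by linarith, by linarith⟩
  have h6 : ‖T 1 ^ n‖ ≤ M ^ n := norm_pow_le' _ _ hM (hMb 1 ⟨zero_le_one, le_rfl⟩)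
  refine mul_le_mul h5 (h6.trans ?_) (norm_nonneg _) (by positivity)
  rw [← Real.rpow_natCast, Real.rpow_def_of_pos (by linarith)]
  exact Real.exp_le_exp.2 (mul_le_mul_of_nonneg_left h1 (Real.log_nonneg hM))

end IsSG

/-- The operator `v ↦ ∫_a^b g(s) T_s v ds`. -/
noncomputable def J (T : ℝ → E →L[ℂ] E) (hT : IsSG T) (g : ℝ → ℂ) (hg : Continuous g) (a b : ℝ)
    (ha : 0 ≤ a) (hab : a ≤ b) : E →L[ℂ] E :=
  LinearMap.mkContinuousOfExistsBound
    { toFun := fun v => ∫ s in a..b, g s • T s v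
      map_add' := fun v w => by
        rw [← intervalIntegral.integral_add]
        · simp only [map_add, smul_add]
        · exact (hg.smul (hT.cont v)).intervalIntegrable _ _
        · exact (hg.smul (hT.cont w)).intervalIntegrable _ _
      map_smul' := fun c v => by
        simp only [map_smul, RingHom.id_apply]
        rw [← intervalIntegral.integral_smul]
        congr 1
        ext s
        rw [smul_comm] }
    (by
      obtain ⟨M, hM, hMb⟩ := hT.bound_Icc b
      obtain ⟨C, hC⟩ := isCompact_Icc.exists_bound_of_continuousOn (s := Icc a b)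
        (f := g) hg.continuousOn
      have hC0 : 0 ≤ C := (norm_nonneg _).trans (hC a ⟨le_rfl, hab⟩)
      refine ⟨C * M * |b - a|, fun v => ?_⟩
      have h1 : ∀ s ∈ Set.uIoc a b, ‖g s • T s v‖ ≤ C * (M * ‖v‖) := by
        intro s hs
        rw [uIoc_of_le hab] at hs
        rw [norm_smul]
        refine mul_le_mul (hC s ⟨hs.1.le, hs.2⟩) ?_ (norm_nonneg _) hC0
        exact (T s).le_of_opNorm_le (hMb s ⟨ha.trans hs.1.le, hs.2⟩) v
      refine (intervalIntegral.norm_integral_le_of_norm_le_const h1).trans (le_of_eq ?_)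
      ring)

theorem J_apply {T : ℝ → E →L[ℂ] E} (hT : IsSG T) (g : ℝ → ℂ) (hg : Continuous g) (a b : ℝ)
    (ha : 0 ≤ a) (hab : a ≤ b) (v : E) : J T hT g hg a b ha hab v = ∫ s in a..b, g s • T s v := rfl

/-- `J` commutes with the semigroup. -/
theorem J_comm {T : ℝ → E →L[ℂ] E} (hT : IsSG T) (g : ℝ → ℂ) (hg : Continuous g) (a b : ℝ)
    (ha : 0 ≤ a) (hab : a ≤ b) {t : ℝ} (ht : 0 ≤ t) (v : E) :
    J T hT g hg a b ha hab (T t v) = T t (J T hT g hg a b ha hab v) := by
  rw [J_apply, J_apply, ← ContinuousLinearMap.intervalIntegral_comp_comm]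
  · refine intervalIntegral.integral_congr fun s hs => ?_
    rw [uIcc_of_le hab] at hs
    simp only [map_smul]
    rw [hT.comm (ha.trans hs.1) ht]
  · exact (hg.smul (hT.cont v)).intervalIntegrable _ _

theorem continuous_cexp (z : ℂ) : Continuous fun s : ℝ => Complex.exp (-z * s) := by
  fun_prop

/-- `∫_0^t e^{-zs} T_s ds`. -/
noncomputable def B (T : ℝ → E →L[ℂ] E) (hT : IsSG T) (z : ℂ) (t : ℝ) (ht : 0 ≤ t) : E →L[ℂ] E :=
  J T hT (fun s => Complex.exp (-z * s)) (continuous_cexp z) 0 t le_rfl ht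

theorem B_apply {T : ℝ → E →L[ℂ] E} (hT : IsSG T) (z : ℂ) (t : ℝ) (ht : 0 ≤ t) (v : E) :
    B T hT z t ht v = ∫ s in (0 : ℝ)..t, Complex.exp (-z * s) • T s v := rfl

/-- First half of the basic identity. -/
theorem gen_B {T : ℝ → E →L[ℂ] E} (hT : IsSG T) (z : ℂ) (t : ℝ) (ht : 0 ≤ t) (v : E) :
    Gen T (B T hT z t ht v)
      (z • B T hT z t ht v - (v - Complex.exp (-z * t) • T t v)) := by
  set F : ℝ → E := fun s => Complex.exp (-z * s) • T s v with hF
  have hFc : Continuous F := (continuous_cexp z).smul (hT.cont v)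
  have hint : ∀ a b : ℝ, IntervalIntegrable F volume a b := fun a b => hFc.intervalIntegrable a b
  -- the shifted integral
  have hΦ : ∀ h : ℝ, 0 ≤ h → T h (B T hT z t ht v) =
      Complex.exp (z * h) • ((∫ s in (0 : ℝ)..(t + h), F s) - ∫ s in (0 : ℝ)..h, F s) := by
    intro h hh
    rw [B_apply, ← ContinuousLinearMap.intervalIntegral_comp_comm _ (hint 0 t)]
    rw [intervalIntegral.integral_interval_sub_left (hint _ _) (hint _ _)]
    have h1 : ∫ s in h..(t + h), F s = ∫ s in (0 : ℝ)..t, F (s + h) := by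
      rw [intervalIntegral.integral_comp_add_right (fun s => F s) h, zero_add]
    rw [h1, ← intervalIntegral.integral_smul]
    refine intervalIntegral.integral_congr fun s hs => ?_
    rw [uIcc_of_le ht] at hs
    simp only [hF, map_smul]
    rw [← hT.add_apply hh hs.1, smul_smul, ← Complex.exp_add, add_comm h s]
    congr 2
    push_cast
    ring
  have hd1 : HasDerivAt (fun h : ℝ => ∫ s in (0 : ℝ)..(t + h), F s) (F t) 0 := by
    have h1 : HasDerivAt (fun u : ℝ => ∫ s in (0 : ℝ)..u, F s) (F (t + 0)) (t + 0) :=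
      intervalIntegral.integral_hasDerivAt_right (hint _ _)
        (hFc.stronglyMeasurableAtFilter _ _) hFc.continuousAt
    have h2 := h1.scomp (0 : ℝ) ((hasDerivAt_id (0 : ℝ)).const_add t)
    simpa [Function.comp_def] using h2
  have hd2 : HasDerivAt (fun h : ℝ => ∫ s in (0 : ℝ)..h, F s) (F 0) 0 :=
    intervalIntegral.integral_hasDerivAt_right (hint _ _)
        (hFc.stronglyMeasurableAtFilter _ _) hFc.continuousAt
  have hd3 : HasDerivAt (fun h : ℝ => Complex.exp (z * h)) z 0 := by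
    have h1 : HasDerivAt (fun w : ℂ => Complex.exp (z * w)) z ((0 : ℝ) : ℂ) := by
      have h2 := ((hasDerivAt_id (((0 : ℝ) : ℂ))).const_mul z).cexp
      simpa using h2
    exact h1.comp_ofReal
  have hd4 := hd3.smul (hd1.sub hd2)
  have h0 : (∫ s in (0 : ℝ)..(t + 0), F s) - ∫ s in (0 : ℝ)..0, F s = B T hT z t ht v := by
    rw [intervalIntegral.integral_same, sub_zero, add_zero, B_apply]
  have hF0 : F 0 = v := by simp [hF, hT.zero_apply]
  unfold Gen
  refine (hd4.hasDerivWithinAt.congr (s := Ioi 0) (fun h hh => hΦ h (le_of_lt hh)) (hΦ 0 le_rfl)).congr_deriv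
    ?_
  simp only [Pi.sub_apply]
  rw [h0, hF0]
  simp only [Complex.ofReal_zero, mul_zero, Complex.exp_zero, one_smul]
  abel

/-- Second half of the basic identity. -/
theorem B_gen {T : ℝ → E →L[ℂ] E} (hT : IsSG T) (z : ℂ) (t : ℝ) (ht : 0 ≤ t) {v u : E}
    (hvu : Gen T v u) : B T hT z t ht (z • v - u) = v - Complex.exp (-z * t) • T t v := by
  have hd : ∀ s : ℝ, 0 ≤ s → HasDerivWithinAt (fun y : ℝ => T y v) (T s u) (Ioi s) s := by
    intro s hs
    have h1 : HasDerivWithinAt (fun y : ℝ => T (y - s) v) u (Ioi s) s := by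
      have h2 : HasDerivWithinAt (fun y : ℝ => y - s) 1 (Ioi s) s :=
        ((hasDerivAt_id s).sub_const s).hasDerivWithinAt
      have h3 : HasDerivWithinAt (fun t => T t v) u (Ioi 0) (s - s) := by
        rw [sub_self]; exact hvu
      have h4 := HasDerivWithinAt.scomp (h := fun y : ℝ => y - s) s h3 h2 (fun y hy => by
        simp only [mem_Ioi, sub_pos] at hy ⊢
        exact hy)
      simpa [Function.comp_def] using h4
    have h5 := (T s).restrictScalars ℝ |>.hasFDerivAt.comp_hasDerivWithinAt s h1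
    refine (h5.congr (fun y hy => ?_) ?_)
    · have hy' : s < y := hy
      change T y v = T s (T (y - s) v)
      rw [← hT.add_apply hs (by linarith)]
      congr 2
      ring
    · change T s v = T s (T (s - s) v)
      rw [sub_self, hT.zero_apply]
  have hexp : ∀ s : ℝ, HasDerivAt (fun y : ℝ => Complex.exp (-z * y)) (-z * Complex.exp (-z * s)) s := by
    intro s
    have h1 : HasDerivAt (fun w : ℂ => Complex.exp (-z * w)) (-z * Complex.exp (-z * s)) (s : ℂ) := by
      have h2 := ((hasDerivAt_id ((s : ℂ))).const_mul (-z)).cexp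
      simpa [mul_comm] using h2
    exact h1.comp_ofReal
  have hcont : Continuous fun y : ℝ => Complex.exp (-z * y) • T y v :=
    (continuous_cexp z).smul (hT.cont v)
  have hint : IntervalIntegrable (fun s : ℝ => Complex.exp (-z * s) • T s (u - z • v)) volume 0 t :=
    ((continuous_cexp z).smul (hT.cont _)).intervalIntegrable _ _
  have key := intervalIntegral.integral_eq_sub_of_hasDeriv_right (a := 0) (b := t)
    (f := fun y : ℝ => Complex.exp (-z * y) • T y v)
    (f' := fun s : ℝ => Complex.exp (-z * s) • T s (u - z • v)) hcont.continuousOn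
    (fun s hs => by
      rw [min_eq_left ht, max_eq_right ht] at hs
      refine (((hexp s).hasDerivWithinAt).smul (hd s hs.1.le)).congr_deriv ?_
      rw [map_sub, map_smul, smul_sub, smul_smul, mul_comm (-z), neg_eq_neg_one_mul, ← mul_assoc]
      module) hint
  rw [B_apply]
  have h2 : ∫ s in (0 : ℝ)..t, Complex.exp (-z * s) • T s (z • v - u) =
      - ∫ s in (0 : ℝ)..t, Complex.exp (-z * s) • T s (u - z • v) := by
    rw [← intervalIntegral.integral_neg]
    congr 1
    ext s
    rw [← smul_neg, ← map_neg, neg_sub]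
  rw [h2, key]
  simp only [Complex.ofReal_zero, mul_zero, Complex.exp_zero, one_smul, hT.zero_apply]
  abel

end Pool.Agent.U183.SG
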