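import Pool.Agent.U183.SG.Weak

set_option autoImplicit false
set_option linter.unusedSectionVars false

namespace Pool.Agent.U183.SG

open Filter Topology Set MeasureTheory

variable {E : Type*} [NormedAddCommGroup E] [InnerProductSpace ℂ E] [CompleteSpace E]

/-- The primitive root of unity. -/
noncomputable def om (M : ℕ) : ℂ := Complex.exp (2 * Real.pi * Complex.I / M)

theorem om_prim {M : ℕ} (hM : M ≠ 0) : IsPrimitiveRoot (om M) M := Complex.isPrimitiveRoot_exp M hM

theorem norm_om {M : ℕ} (hM : M ≠ 0) : ‖om M‖ = 1 := (om_prim hM).norm'_eq_one hM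

theorem om_orth {M : ℕ} (hM : M ≠ 0) {k l : ℕ} (hk : k < M) (hl : l < M) :
    ∑ m ∈ Finset.range M, (starRingEnd ℂ) ((om M ^ m) ^ k) * (om M ^ m) ^ l =
      if k = l then (M : ℂ) else 0 := by
  have h0 : om M ≠ 0 := (om_prim hM).ne_zero hM
  have hconj : (starRingEnd ℂ) (om M) = (om M)⁻¹ := by
    rw [Complex.inv_def, Complex.normSq_eq_norm_sq, norm_om hM]
    simp
  have h1 : ∀ m : ℕ, (starRingEnd ℂ) ((om M ^ m) ^ k) * (om M ^ m) ^ l =
      ((om M ^ k)⁻¹ * om M ^ l) ^ m := by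
    intro m
    rw [map_pow, map_pow, hconj, mul_pow, inv_pow, inv_pow, inv_pow, ← pow_mul, ← pow_mul,
      ← pow_mul, ← pow_mul, mul_comm k m, mul_comm l m]
  simp only [h1]
  split_ifs with h
  · rw [h, inv_mul_cancel₀ (pow_ne_zero _ h0)]
    simp
  · have hne : (om M ^ k)⁻¹ * om M ^ l ≠ 1 := by
      intro h2
      rw [inv_mul_eq_one₀ (pow_ne_zero _ h0)] at h2
      exact h ((om_prim hM).pow_inj hk hl h2)
    rw [geom_sum_eq hne]
    have h3 : ((om M ^ k)⁻¹ * om M ^ l) ^ M = 1 := by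
      rw [mul_pow, inv_pow, ← pow_mul, ← pow_mul, mul_comm k M, mul_comm l M, pow_mul, pow_mul,
        (om_prim hM).pow_eq_one]
      simp
    rw [h3, sub_self, zero_div]

theorem parseval {M : ℕ} (hM : M ≠ 0) (g : ℕ → E) :
    ∑ m ∈ Finset.range M, ‖∑ k ∈ Finset.range M, (om M ^ m) ^ k • g k‖ ^ 2 =
      M * ∑ k ∈ Finset.range M, ‖g k‖ ^ 2 := by
  have h1 : ((∑ m ∈ Finset.range M, ‖∑ k ∈ Finset.range M, (om M ^ m) ^ k • g k‖ ^ 2 : ℝ) : ℂ) =
      ((M * ∑ k ∈ Finset.range M, ‖g k‖ ^ 2 : ℝ) : ℂ) := by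
    push_cast
    have h2 : ∀ v : E, ((‖v‖ : ℂ)) ^ 2 = inner ℂ v v := fun v => (inner_self_eq_norm_sq_to_K v).symm
    simp only [h2]
    have h3 : ∀ m : ℕ, inner ℂ (∑ k ∈ Finset.range M, (om M ^ m) ^ k • g k)
        (∑ l ∈ Finset.range M, (om M ^ m) ^ l • g l) =
        ∑ k ∈ Finset.range M, ∑ l ∈ Finset.range M,
          ((starRingEnd ℂ) ((om M ^ m) ^ k) * (om M ^ m) ^ l) * inner ℂ (g k) (g l) := by
      intro m
      rw [sum_inner]
      refine Finset.sum_congr rfl fun k _ => ?_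
      rw [inner_sum]
      refine Finset.sum_congr rfl fun l _ => ?_
      rw [inner_smul_left, inner_smul_right, mul_assoc]
    simp only [h3]
    rw [Finset.sum_comm, Finset.mul_sum]
    refine Finset.sum_congr rfl fun k hk => ?_
    rw [Finset.sum_comm]
    rw [Finset.mem_range] at hk
    have h4 : ∀ l ∈ Finset.range M, ∑ m ∈ Finset.range M,
        ((starRingEnd ℂ) ((om M ^ m) ^ k) * (om M ^ m) ^ l) * inner ℂ (g k) (g l) =
        if k = l then (M : ℂ) * inner ℂ (g k) (g l) else 0 := by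
      intro l hl
      rw [Finset.mem_range] at hl
      rw [← Finset.sum_mul, om_orth hM hk hl]
      split_ifs <;> simp
    rw [Finset.sum_congr rfl h4, Finset.sum_ite_eq, if_pos (Finset.mem_range.2 hk)]
  exact_mod_cast h1

/-- Boundedness of the convolution. -/
theorem conv_bound (N : ℕ) (hN : N ≠ 0) (A : ℕ → E →L[ℂ] E) (f : ℕ → E) (C : ℝ)
    (hC : ∀ z : ℂ, ‖z‖ = 1 → ‖∑ n ∈ Finset.range N, z ^ n • A n‖ ≤ C) :
    ∑ k ∈ Finset.range (2 * N),
      ‖∑ p ∈ (Finset.range N ×ˢ Finset.range N) with p.1 + p.2 = k, A p.1 (f p.2)‖ ^ 2 ≤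
      C ^ 2 * ∑ j ∈ Finset.range N, ‖f j‖ ^ 2 := by
  have hM : 2 * N ≠ 0 := by positivity
  have hM0 : (0 : ℝ) < ((2 * N : ℕ) : ℝ) := by positivity
  set g : ℕ → E := fun k =>
    ∑ p ∈ (Finset.range N ×ˢ Finset.range N) with p.1 + p.2 = k, A p.1 (f p.2) with hg
  set F : ℕ → E := fun j => if j < N then f j else 0 with hF
  -- the transform of `g`
  have h1 : ∀ z : ℂ, ∑ k ∈ Finset.range (2 * N), z ^ k • g k =
      (∑ n ∈ Finset.range N, z ^ n • A n) (∑ k ∈ Finset.range (2 * N), z ^ k • F k) := by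
    intro z
    have e1 : ∑ k ∈ Finset.range (2 * N), z ^ k • F k = ∑ j ∈ Finset.range N, z ^ j • f j := by
      rw [← Finset.sum_subset (Finset.range_mono (by omega : N ≤ 2 * N))]
      · refine Finset.sum_congr rfl fun j hj => ?_
        rw [hF]
        simp only
        rw [if_pos (Finset.mem_range.1 hj)]
      · intro j _ hj
        rw [Finset.mem_range] at hj
        rw [hF]
        simp only
        rw [if_neg hj, smul_zero]
    rw [e1]
    have e2 : (∑ n ∈ Finset.range N, z ^ n • A n) (∑ j ∈ Finset.range N, z ^ j • f j) =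
        ∑ p ∈ Finset.range N ×ˢ Finset.range N, z ^ (p.1 + p.2) • A p.1 (f p.2) := by
      rw [Finset.sum_product, sum_apply]
      refine Finset.sum_congr rfl fun n _ => ?_
      rw [map_sum]
      refine Finset.sum_congr rfl fun j _ => ?_
      change z ^ n • A n (z ^ j • f j) = z ^ (n + j) • A n (f j)
      rw [map_smul, smul_smul, pow_add]
    rw [e2, ← Finset.sum_fiberwise_of_maps_to (g := fun p : ℕ × ℕ => p.1 + p.2)
      (t := Finset.range (2 * N))]
    · refine Finset.sum_congr rfl fun k _ => ?_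
      rw [hg]
      simp only
      rw [Finset.smul_sum]
      refine Finset.sum_congr rfl fun p hp => ?_
      rw [(Finset.mem_filter.1 hp).2]
    · intro p hp
      rw [Finset.mem_product, Finset.mem_range, Finset.mem_range] at hp
      rw [Finset.mem_range]
      omega
  have h2 := parseval hM g
  have h3 := parseval hM F
  have h4 : ∑ m ∈ Finset.range (2 * N), ‖∑ k ∈ Finset.range (2 * N), (om (2 * N) ^ m) ^ k • g k‖ ^ 2
      ≤ C ^ 2 * ∑ m ∈ Finset.range (2 * N),
        ‖∑ k ∈ Finset.range (2 * N), (om (2 * N) ^ m) ^ k • F k‖ ^ 2 := by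
    rw [Finset.mul_sum]
    refine Finset.sum_le_sum fun m _ => ?_
    rw [h1, ← mul_pow]
    refine pow_le_pow_left₀ (norm_nonneg _) ?_ 2
    exact ContinuousLinearMap.le_of_opNorm_le _ (hC _ (by rw [norm_pow, norm_om hM, one_pow])) _
  rw [h2, h3] at h4
  have h5 : ∑ k ∈ Finset.range (2 * N), ‖F k‖ ^ 2 = ∑ j ∈ Finset.range N, ‖f j‖ ^ 2 := by
    rw [← Finset.sum_subset (Finset.range_mono (by omega : N ≤ 2 * N))]
    · refine Finset.sum_congr rfl fun j hj => ?_
      rw [hF]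
      simp only
      rw [if_pos (Finset.mem_range.1 hj)]
    · intro j _ hj
      rw [Finset.mem_range] at hj
      rw [hF]
      simp only
      rw [if_neg hj, norm_zero]
      norm_num
  rw [h5] at h4
  have h6 : ((2 * N : ℕ) : ℝ) * ∑ k ∈ Finset.range (2 * N), ‖g k‖ ^ 2 ≤
      ((2 * N : ℕ) : ℝ) * (C ^ 2 * ∑ j ∈ Finset.range N, ‖f j‖ ^ 2) := by
    calc _ ≤ _ := h4
      _ = _ := by ring
  exact le_of_mul_le_mul_left h6 hM0

end Pool.Agent.U183.SG
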