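import Pool.Agent.U183.SG.Basic

set_option autoImplicit false
set_option linter.unusedSectionVars false

namespace Pool.Agent.U183.SG

open Filter Topology Set MeasureTheory

variable {E : Type*} [NormedAddCommGroup E] [InnerProductSpace ℂ E] [CompleteSpace E]

/-- If `‖T_t‖ < e^{t Re z}` for some `t > 0` then `z` is in the resolvent set. -/
theorem res_of_norm_lt {T : ℝ → E →L[ℂ] E} (hT : IsSG T) {z : ℂ} {t : ℝ} (ht : 0 ≤ t)
    (h : ‖T t‖ < Real.exp (t * z.re)) :
    ∃ Q : E →L[ℂ] E, Q * (1 - Complex.exp (-z * t) • T t) = 1 ∧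
      (∀ w, HasSum (fun n : ℕ => (Complex.exp (-z * t) • T t) ^ n • w) (Q w)) ∧
      IsRes T z (B T hT z t ht * Q) := by
  set X : E →L[ℂ] E := Complex.exp (-z * t) • T t with hX
  have hXn : ‖X‖ < 1 := by
    rw [hX, norm_smul, Complex.norm_exp]
    have h1 : (-z * (t : ℂ)).re = -(t * z.re) := by simp [mul_comm]
    rw [h1, Real.exp_neg, ← div_eq_inv_mul, div_lt_one (Real.exp_pos _)]
    exact h
  set Q : E →L[ℂ] E := ∑' n : ℕ, X ^ n with hQ
  have hsum : Summable fun n : ℕ => X ^ n := summable_geometric_of_norm_lt_one hXn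
  have hQ1 : Q * (1 - X) = 1 := geom_series_mul_neg X hXn
  have hQ2 : (1 - X) * Q = 1 := mul_neg_geom_series X hXn
  refine ⟨Q, hQ1, ?_, ?_, ?_⟩
  · intro w
    have h1 := hsum.hasSum
    exact (ContinuousLinearMap.apply ℂ E w).hasSum h1
  · intro w
    have h1 := gen_B hT z t ht (Q w)
    have h2 : Q w - Complex.exp (-z * t) • T t (Q w) = w := by
      have h3 : ((1 - X) * Q) w = w := by rw [hQ2]; rfl
      exact h3
    rw [h2] at h1
    exact h1
  · intro v u hvu
    have h1 := B_gen hT z t ht hvu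
    -- `B` commutes with `X`, hence with `Q`
    have hcomm : B T hT z t ht * X = X * B T hT z t ht := by
      ext w
      have h3 := J_comm hT (fun s => Complex.exp (-z * s)) (continuous_cexp z) 0 t le_rfl ht ht w
      change B T hT z t ht (Complex.exp (-z * t) • T t w) =
        Complex.exp (-z * t) • T t (B T hT z t ht w)
      rw [map_smul]
      exact congrArg _ h3
    have hcomm1 : B T hT z t ht * (1 - X) = (1 - X) * B T hT z t ht := by
      rw [mul_sub, sub_mul, hcomm, mul_one, one_mul]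
    have hcomm2 : B T hT z t ht * Q = Q * B T hT z t ht := by
      calc B T hT z t ht * Q = (Q * (1 - X)) * (B T hT z t ht * Q) := by rw [hQ1, one_mul]
        _ = Q * ((1 - X) * B T hT z t ht) * Q := by noncomm_ring
        _ = Q * (B T hT z t ht * (1 - X)) * Q := by rw [hcomm1]
        _ = Q * B T hT z t ht * ((1 - X) * Q) := by noncomm_ring
        _ = Q * B T hT z t ht := by rw [hQ2, mul_one]
    rw [hcomm2]
    change Q (B T hT z t ht (z • v - u)) = v
    rw [h1]
    have h4 : (Q * (1 - X)) v = v := by rw [hQ1]; rfl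
    exact h4

/-- The resolvent identity. -/
theorem res_identity {T : ℝ → E →L[ℂ] E} {z w : ℂ} {R S : E →L[ℂ] E} (hR : IsRes T z R)
    (hS : IsRes T w S) : R * (1 + (z - w) • S) = S := by
  ext x
  have h1 := hS.1 x
  have h2 := hR.2 _ _ h1
  change R (x + (z - w) • S x) = S x
  have h3 : x + (z - w) • S x = z • S x - (w • S x - x) := by
    rw [sub_smul]
    abel
  rw [h3]
  exact h2

theorem IsRes.unique {T : ℝ → E →L[ℂ] E} {z : ℂ} {R S : E →L[ℂ] E} (hR : IsRes T z R)
    (hS : IsRes T z S) : R = S := by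
  have h := res_identity hR hS
  rw [sub_self, zero_smul, add_zero, mul_one] at h
  exact h

/-- A closed convex cone. -/
structure IsCone (K : Set E) : Prop where
  closed : IsClosed K
  zero : (0 : E) ∈ K
  add : ∀ x ∈ K, ∀ y ∈ K, x + y ∈ K
  smul : ∀ r : ℝ, 0 ≤ r → ∀ x ∈ K, (r : ℂ) • x ∈ K

namespace IsCone

variable {K : Set E}

theorem sum (hK : IsCone K) {ι : Type*} (s : Finset ι) (f : ι → E) (hf : ∀ i ∈ s, f i ∈ K) :
    ∑ i ∈ s, f i ∈ K := by
  classical
  induction s using Finset.induction_on with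
  | empty => simpa using hK.zero
  | insert a s ha ih =>
    rw [Finset.sum_insert ha]
    exact hK.add _ (hf a (Finset.mem_insert_self a s)) _
      (ih fun i hi => hf i (Finset.mem_insert_of_mem hi))

theorem hasSum (hK : IsCone K) {f : ℕ → E} {x : E} (hf : ∀ n, f n ∈ K) (h : HasSum f x) : x ∈ K :=
  hK.closed.mem_of_tendsto h (Eventually.of_forall fun s => hK.sum s f fun i _ => hf i)

theorem convex (hK : IsCone K) : Convex ℝ K := by
  intro x hx y hy a b ha hb _
  have h1 := hK.smul a ha x hx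
  have h2 := hK.smul b hb y hy
  exact hK.add _ h1 _ h2

theorem integral_mem (hK : IsCone K) {f : ℝ → E} (hf : Continuous f) {a b : ℝ} (hab : a ≤ b)
    (h : ∀ s ∈ Icc a b, f s ∈ K) : ∫ s in a..b, f s ∈ K := by
  rcases hab.eq_or_lt with rfl | hlt
  · rw [intervalIntegral.integral_same]
    exact hK.zero
  have h1 : (⨍ s in Ioc a b, f s) ∈ K := by
    refine hK.convex.set_average_mem hK.closed ?_ ?_ ?_ ?_
    · rw [Real.volume_Ioc]
      simpa using hlt
    · rw [Real.volume_Ioc]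
      exact ENNReal.ofReal_ne_top
    · exact (ae_restrict_iff' measurableSet_Ioc).2 (Eventually.of_forall fun s hs =>
        h s ⟨hs.1.le, hs.2⟩)
    · exact (hf.integrableOn_Icc).mono_set Ioc_subset_Icc_self
  have h2 : ∫ s in a..b, f s = ((b - a : ℝ) : ℂ) • ⨍ s in Ioc a b, f s := by
    rw [intervalIntegral.integral_of_le hab, setAverage_eq, Real.volume_real_Ioc_of_le hab,
      Complex.coe_smul, smul_smul, mul_inv_cancel₀ (by linarith), one_smul]
  rw [h2]
  exact hK.smul _ (by linarith) _ h1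

end IsCone

/-- Positive operators. -/
def Pos (K : Set E) (S : E →L[ℂ] E) : Prop := ∀ x ∈ K, S x ∈ K

theorem Pos.pow {K : Set E} {S : E →L[ℂ] E} (hS : Pos K S) (n : ℕ) : Pos K (S ^ n) := by
  induction n with
  | zero => exact fun x hx => hx
  | succ n ih =>
    intro x hx
    rw [pow_succ]
    exact ih _ (hS x hx)

theorem Pos.mul {K : Set E} {R S : E →L[ℂ] E} (hR : Pos K R) (hS : Pos K S) : Pos K (R * S) :=
  fun x hx => hR _ (hS x hx)

theorem Pos.smul {K : Set E} (hK : IsCone K) {S : E →L[ℂ] E} (hS : Pos K S) {r : ℝ} (hr : 0 ≤ r) :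
    Pos K ((r : ℂ) • S) := fun x hx => hK.smul r hr _ (hS x hx)

theorem pos_B {T : ℝ → E →L[ℂ] E} (hT : IsSG T) {K : Set E} (hK : IsCone K)
    (hpos : ∀ t, 0 ≤ t → Pos K (T t)) (b : ℝ) (t : ℝ) (ht : 0 ≤ t) : Pos K (B T hT b t ht) := by
  intro x hx
  rw [B_apply]
  refine hK.integral_mem ((continuous_cexp _).smul (hT.cont x)) ht fun s hs => ?_
  have h1 : Complex.exp (-(b : ℂ) * s) = ((Real.exp (-b * s) : ℝ) : ℂ) := by
    push_cast
    rfl
  change Complex.exp (-(b : ℂ) * s) • T s x ∈ K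
  rw [h1]
  exact hK.smul _ (Real.exp_pos _).le _ (hpos s hs.1 x hx)

/-- Neumann series for the resolvent at a smaller real point. -/
theorem pos_of_pos {T : ℝ → E →L[ℂ] E} {K : Set E} (hK : IsCone K) {a b : ℝ} (hba : b ≤ a)
    {R S : E →L[ℂ] E} (hR : IsRes T (b : ℂ) R) (hS : IsRes T (a : ℂ) S) (hpos : Pos K S)
    (hlt : (a - b) * ‖S‖ < 1) : Pos K R := by
  have h1 := res_identity hR hS
  set X : E →L[ℂ] E := ((a - b : ℝ) : ℂ) • S with hX
  have h2 : (1 : E →L[ℂ] E) + ((b : ℂ) - a) • S = 1 - X := by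
    rw [hX]
    push_cast
    module
  rw [h2] at h1
  have hXn : ‖X‖ < 1 := by
    rw [hX, norm_smul, Complex.norm_real, Real.norm_of_nonneg (by linarith)]
    exact hlt
  have h3 : R = S * ∑' n : ℕ, X ^ n := by
    rw [← h1, mul_assoc, mul_neg_geom_series X hXn, mul_one]
  rw [h3]
  have hsum : Summable fun n : ℕ => X ^ n := summable_geometric_of_norm_lt_one hXn
  refine hpos.mul fun x hx => ?_
  refine hK.hasSum (f := fun n : ℕ => (X ^ n) x) (fun n => ?_)
    ((ContinuousLinearMap.apply ℂ E x).hasSum hsum.hasSum)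
  exact (hpos.smul hK (by linarith)).pow n x hx

/-- The norm of the resolvent is locally bounded. -/
theorem norm_le_of_close {T : ℝ → E →L[ℂ] E} {a b : ℝ} {R S : E →L[ℂ] E}
    (hR : IsRes T (b : ℂ) R) (hS : IsRes T (a : ℂ) S) (hlt : |a - b| * ‖S‖ ≤ 1 / 2) :
    ‖R‖ ≤ 2 * ‖S‖ := by
  have h1 := res_identity hR hS
  have h2 : R = S - R * (((b : ℂ) - a) • S) := by
    have h3 : R * (1 + ((b : ℂ) - a) • S) = R + R * (((b : ℂ) - a) • S) := by
      rw [mul_add, mul_one]
    rw [h3] at h1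
    exact eq_sub_of_add_eq h1
  have h4 : ‖((b : ℂ) - a) • S‖ ≤ 1 / 2 := by
    rw [norm_smul, ← Complex.ofReal_sub, Complex.norm_real, Real.norm_eq_abs, abs_sub_comm]
    exact hlt
  have h5 : ‖R‖ ≤ ‖S‖ + ‖R‖ * (1 / 2) := by
    calc ‖R‖ = ‖S - R * (((b : ℂ) - a) • S)‖ := by rw [← h2]
      _ ≤ ‖S‖ + ‖R * (((b : ℂ) - a) • S)‖ := norm_sub_le _ _
      _ ≤ ‖S‖ + ‖R‖ * ‖((b : ℂ) - a) • S‖ := by gcongr; exact norm_mul_le _ _
      _ ≤ ‖S‖ + ‖R‖ * (1 / 2) := by gcongr
  linarith

/-- If all real numbers `≥ b` are in the resolvent set then the resolvent at `b` is positive. -/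
theorem pos_res {T : ℝ → E →L[ℂ] E} (hT : IsSG T) {K : Set E} (hK : IsCone K)
    (hpos : ∀ t, 0 ≤ t → Pos K (T t)) {b : ℝ}
    (hres : ∀ c : ℝ, b ≤ c → ∃ R, IsRes T (c : ℂ) R) :
    ∀ c : ℝ, b ≤ c → ∀ R, IsRes T (c : ℂ) R → Pos K R := by
  classical
  obtain ⟨M, w, hM, hw, hMw⟩ := hT.exp_bound
  -- the set of all `c ≥ b` beyond which the resolvent is positive
  set G : Set ℝ := {c | b ≤ c ∧ ∀ d, c ≤ d → ∀ R, IsRes T (d : ℂ) R → Pos K R} with hG
  -- it is not empty
  have hne : ∃ c, c ∈ G := by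
    refine ⟨max b (w + Real.log M + 1), le_max_left _ _, fun d hd R hR => ?_⟩
    have hd' : w + Real.log M + 1 ≤ d := (le_max_right _ _).trans hd
    have hlt : ‖T 1‖ < Real.exp (1 * ((d : ℂ)).re) := by
      refine (hMw 1 zero_le_one).trans_lt ?_
      rw [Complex.ofReal_re, one_mul, mul_one]
      calc M * Real.exp w = Real.exp (Real.log M) * Real.exp w := by
            rw [Real.exp_log (by linarith)]
        _ = Real.exp (Real.log M + w) := (Real.exp_add _ _).symm
        _ < Real.exp d := Real.exp_lt_exp.2 (by linarith)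
    obtain ⟨Q, -, hQ2, hQ3⟩ := res_of_norm_lt hT zero_le_one hlt
    rw [hR.unique hQ3]
    refine (pos_B hT hK hpos d 1 zero_le_one).mul fun x hx => ?_
    refine hK.hasSum (fun n => ?_) (hQ2 x)
    have h1 : Complex.exp (-(d : ℂ) * (1 : ℝ)) = ((Real.exp (-d * 1) : ℝ) : ℂ) := by
      push_cast
      rfl
    have h2 : Pos K (Complex.exp (-(d : ℂ) * (1 : ℝ)) • T 1) := by
      rw [h1]
      exact (hpos 1 zero_le_one).smul hK (Real.exp_pos _).le
    exact h2.pow n x hx
  have hbdd : BddBelow G := ⟨b, fun c hc => hc.1⟩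
  set c := sInf G with hc
  have hbc : b ≤ c := le_csInf hne fun x hx => hx.1
  -- all points above `c` are in `G`
  have habove : ∀ d, c < d → d ∈ G := by
    intro d hd
    obtain ⟨e, he, hed⟩ := (csInf_lt_iff hbdd hne).1 hd
    exact ⟨hbc.trans hd.le, fun f hf R hR => he.2 f (hed.le.trans hf) R hR⟩
  -- the point `c` itself
  obtain ⟨Rc, hRc⟩ := hres c hbc
  have hposc : Pos K Rc := by
    set δ : ℝ := 1 / (4 * (‖Rc‖ + 1)) with hδ
    have hδ0 : 0 < δ := by positivity
    obtain ⟨S, hS⟩ := hres (c + δ) (by linarith)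
    have h1 : ‖S‖ ≤ 2 * ‖Rc‖ := by
      refine norm_le_of_close hS hRc ?_
      rw [show c - (c + δ) = -δ by ring, abs_neg, abs_of_pos hδ0, hδ]
      rw [div_mul_eq_mul_div, one_mul, div_le_div_iff₀ (by positivity) (by norm_num)]
      nlinarith [norm_nonneg Rc]
    refine pos_of_pos hK (by linarith) hRc hS ((habove (c + δ) (by linarith)).2 _ le_rfl _ hS) ?_
    rw [show c + δ - c = δ by ring]
    calc δ * ‖S‖ ≤ δ * (2 * ‖Rc‖) := by gcongr
      _ = (2 * ‖Rc‖) / (4 * (‖Rc‖ + 1)) := by rw [hδ]; ring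
      _ < 1 := by
        rw [div_lt_one (by positivity)]
        nlinarith [norm_nonneg Rc]
  have hcG : c ∈ G := by
    refine ⟨hbc, fun d hd R hR => ?_⟩
    rcases hd.eq_or_lt with rfl | hlt
    · rw [hR.unique hRc]
      exact hposc
    · exact (habove d hlt).2 d le_rfl R hR
  -- `c = b`
  have hcb : c ≤ b := by
    by_contra hlt
    push Not at hlt
    set δ : ℝ := min (c - b) (1 / (2 * (‖Rc‖ + 1))) with hδ
    have hδ0 : 0 < δ := lt_min (by linarith) (by positivity)
    have hmem : c - δ ∈ G := by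
      refine ⟨by linarith [min_le_left (c - b) (1 / (2 * (‖Rc‖ + 1)))], fun d hd R hR => ?_⟩
      rcases le_or_gt c d with h | h
      · exact hcG.2 d h R hR
      · refine pos_of_pos hK h.le hR hRc hposc ?_
        have h1 : c - d ≤ 1 / (2 * (‖Rc‖ + 1)) := by
          linarith [min_le_right (c - b) (1 / (2 * (‖Rc‖ + 1)))]
        calc (c - d) * ‖Rc‖ ≤ 1 / (2 * (‖Rc‖ + 1)) * ‖Rc‖ := by gcongr
          _ = ‖Rc‖ / (2 * (‖Rc‖ + 1)) := by ring
          _ < 1 := by
            rw [div_lt_one (by positivity)]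
            nlinarith [norm_nonneg Rc]
    have := csInf_le hbdd hmem
    linarith
  intro d hd R hR
  exact hcG.2 d (hcb.trans hd) R hR

end Pool.Agent.U183.SG
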