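import Pool.Agent.U183.SG.Parseval

set_option autoImplicit false
set_option linter.unusedSectionVars false

namespace Pool.Agent.U183.SG

open Filter Topology Set MeasureTheory

variable {E : Type*} [NormedAddCommGroup E] [InnerProductSpace ℂ E] [CompleteSpace E]

theorem geom_bound {h : ℝ} (hh : 0 < h) (hh1 : h ≤ 1) (N : ℕ) :
    ∑ j ∈ Finset.range N, (Real.exp (-(2 * h))) ^ j ≤ 3 / (2 * h) := by
  set r := Real.exp (-(2 * h)) with hr
  have hr0 : 0 < r := Real.exp_pos _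
  have h1 : r * (1 + 2 * h) ≤ 1 := by
    have h2 := Real.add_one_le_exp (2 * h)
    calc r * (1 + 2 * h) ≤ r * Real.exp (2 * h) := by
          refine mul_le_mul_of_nonneg_left ?_ hr0.le
          linarith
      _ = 1 := by rw [hr, ← Real.exp_add]; simp
  have h3 : 0 < 1 - r := by nlinarith
  have h4 : (∑ j ∈ Finset.range N, r ^ j) * (1 - r) ≤ 1 := by
    rw [geom_sum_mul_neg]
    have : 0 ≤ r ^ N := by positivity
    linarith
  have h5 : 2 * h / 3 ≤ 1 - r := by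
    have h6 : 2 * h / (1 + 2 * h) ≤ 1 - r := by
      rw [div_le_iff₀ (by linarith)]
      nlinarith
    have h7 : 2 * h / 3 ≤ 2 * h / (1 + 2 * h) := by
      apply div_le_div_of_nonneg_left (by linarith) (by linarith) (by linarith)
    linarith
  have h8 : 0 ≤ ∑ j ∈ Finset.range N, r ^ j := Finset.sum_nonneg fun j _ => by positivity
  rw [le_div_iff₀ (by linarith)]
  nlinarith

/-- The main estimate. -/
theorem main_est {U : ℝ → E →L[ℂ] E} (hU : IsSG U) {C : ℝ} (hC : ∀ i : Idx, ‖Vop hU i‖ ≤ C) :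
    ∃ D : ℝ, 0 ≤ D ∧ ∀ (m N : ℕ) (hm : 0 < m) (x : E),
      ∑ k ∈ Finset.Ico m N, ‖U (k * (1 / m : ℝ)) ((m : ℂ) • Gop hU (1 / m : ℝ) (by positivity) x)‖ ^ 2
        ≤ D * m * ‖x‖ ^ 2 := by
  obtain ⟨M, w, hM, hw, hMw⟩ := hU.exp_bound
  refine ⟨Real.exp (w + 1) ^ 2 * C ^ 2 * M ^ 2 * (3 / 2), by positivity, fun m N hm x => ?_⟩
  have hm0 : (0 : ℝ) < m := by exact_mod_cast hm
  have hm1 : (1 : ℝ) ≤ m := by exact_mod_cast hm
  set h : ℝ := 1 / m with hh
  have hh0 : 0 < h := by positivity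
  have hh1 : h ≤ 1 := by
    rw [hh, div_le_one hm0]
    exact hm1
  rcases Nat.eq_zero_or_pos N with rfl | hN
  · simp only [Finset.Ico_eq_empty_of_le (Nat.zero_le m), Finset.sum_empty]
    positivity
  set a : ℝ := Real.exp (-((w + 1) * h)) with ha
  have ha0 : 0 < a := Real.exp_pos _
  have ha1 : a ≤ 1 := by
    rw [ha, Real.exp_le_one_iff]
    have : 0 ≤ (w + 1) * h := by positivity
    linarith
  set A : ℕ → E →L[ℂ] E := fun n => U (n * h) * Gop hU h hh0.le with hA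
  set f : ℕ → E := fun j => ((a ^ j : ℝ) : ℂ) • U (j * h) x with hf
  have key := conv_bound N hN.ne' A f C (fun z hz => by
    have := hC ⟨N, h, hh0.le, fun n => z ^ n, fun n => by rw [norm_pow, hz, one_pow]⟩
    exact this)
  -- the convolution
  have hterm : ∀ p : ℕ × ℕ, A p.1 (f p.2) =
      ((a ^ p.2 : ℝ) : ℂ) • U (((p.1 + p.2 : ℕ) : ℝ) * h) (Gop hU h hh0.le x) := by
    intro p
    change U (p.1 * h) (Gop hU h hh0.le (((a ^ p.2 : ℝ) : ℂ) • U (p.2 * h) x)) = _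
    rw [map_smul, map_smul]
    have e1 : Gop hU h hh0.le (U (p.2 * h) x) = U (p.2 * h) (Gop hU h hh0.le x) :=
      J_comm hU _ _ 0 h le_rfl hh0.le (by positivity) x
    rw [e1, ← hU.add_apply (by positivity) (by positivity)]
    congr 3
    push_cast
    ring
  have hconv : ∀ k, ∑ p ∈ (Finset.range N ×ˢ Finset.range N) with p.1 + p.2 = k, A p.1 (f p.2) =
      ((∑ p ∈ (Finset.range N ×ˢ Finset.range N) with p.1 + p.2 = k, a ^ p.2 : ℝ) : ℂ) •
        U (k * h) (Gop hU h hh0.le x) := by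
    intro k
    rw [Complex.ofReal_sum, Finset.sum_smul]
    refine Finset.sum_congr rfl fun p hp => ?_
    rw [hterm, (Finset.mem_filter.1 hp).2]
  have hlow : ∀ k ∈ Finset.Ico m N, (m : ℝ) * Real.exp (-(w + 1)) ≤
      ∑ p ∈ (Finset.range N ×ˢ Finset.range N) with p.1 + p.2 = k, a ^ p.2 := by
    intro k hk
    rw [Finset.mem_Ico] at hk
    have e1 : (Finset.range m).image (fun j => (k - j, j)) ⊆
        (Finset.range N ×ˢ Finset.range N).filter fun p => p.1 + p.2 = k := by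
      intro p hp
      rw [Finset.mem_image] at hp
      obtain ⟨j, hj, rfl⟩ := hp
      rw [Finset.mem_range] at hj
      rw [Finset.mem_filter, Finset.mem_product, Finset.mem_range, Finset.mem_range]
      refine ⟨⟨?_, ?_⟩, ?_⟩ <;> simp only <;> omega
    have e2 := Finset.sum_le_sum_of_subset_of_nonneg e1 (f := fun p : ℕ × ℕ => a ^ p.2)
      (fun p _ _ => by positivity)
    rw [Finset.sum_image (fun i _ j _ hij => (Prod.ext_iff.1 hij).2)] at e2
    refine le_trans ?_ e2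
    have e3 : a ^ m = Real.exp (-(w + 1)) := by
      rw [ha, ← Real.exp_nat_mul]
      congr 1
      rw [hh]
      field_simp
    rw [← e3]
    calc (m : ℝ) * a ^ m = ∑ _j ∈ Finset.range m, a ^ m := by simp
      _ ≤ ∑ j ∈ Finset.range m, a ^ j := Finset.sum_le_sum fun j hj =>
          pow_le_pow_of_le_one ha0.le ha1 (Finset.mem_range.1 hj).le
  -- left side
  have hleft : ∑ k ∈ Finset.Ico m N,
      ‖U (k * h) ((m : ℂ) • Gop hU h hh0.le x)‖ ^ 2 ≤
      Real.exp (w + 1) ^ 2 * ∑ k ∈ Finset.range (2 * N),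
        ‖∑ p ∈ (Finset.range N ×ˢ Finset.range N) with p.1 + p.2 = k, A p.1 (f p.2)‖ ^ 2 := by
    rw [Finset.mul_sum]
    refine le_trans ?_ (Finset.sum_le_sum_of_subset_of_nonneg (s := Finset.Ico m N) ?_
      fun k _ _ => by positivity)
    · refine Finset.sum_le_sum fun k hk => ?_
      rw [← mul_pow, hconv, map_smul, norm_smul, norm_smul, Complex.norm_real, Complex.norm_natCast]
      refine pow_le_pow_left₀ (by positivity) ?_ 2
      rw [← mul_assoc]
      refine mul_le_mul_of_nonneg_right ?_ (norm_nonneg _)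
      have e1 := hlow k hk
      calc (m : ℝ) = Real.exp (w + 1) * ((m : ℝ) * Real.exp (-(w + 1))) := by
            rw [Real.exp_neg]
            field_simp
        _ ≤ Real.exp (w + 1) * _ := mul_le_mul_of_nonneg_left e1 (Real.exp_pos _).le
        _ ≤ _ := mul_le_mul_of_nonneg_left (le_abs_self _) (Real.exp_pos _).le
    · intro k hk
      rw [Finset.mem_Ico] at hk
      rw [Finset.mem_range]
      omega
  -- right side
  have hright : ∑ j ∈ Finset.range N, ‖f j‖ ^ 2 ≤ M ^ 2 * ‖x‖ ^ 2 * (3 / (2 * h)) := by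
    calc ∑ j ∈ Finset.range N, ‖f j‖ ^ 2
        ≤ ∑ j ∈ Finset.range N, M ^ 2 * ‖x‖ ^ 2 * (Real.exp (-(2 * h))) ^ j := by
          refine Finset.sum_le_sum fun j _ => ?_
          have e1 : ‖f j‖ ≤ M * ‖x‖ * Real.exp (-(j * h)) := by
            rw [hf]
            simp only
            rw [norm_smul, Complex.norm_real, Real.norm_of_nonneg (by positivity)]
            have e2 : ‖U (j * h) x‖ ≤ M * Real.exp (w * (j * h)) * ‖x‖ :=
              ContinuousLinearMap.le_of_opNorm_le _ (hMw _ (by positivity)) x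
            calc a ^ j * ‖U (j * h) x‖ ≤ a ^ j * (M * Real.exp (w * (j * h)) * ‖x‖) := by gcongr
              _ = M * ‖x‖ * (a ^ j * Real.exp (w * (j * h))) := by ring
              _ = M * ‖x‖ * Real.exp (-(j * h)) := by
                congr 1
                rw [ha, ← Real.exp_nat_mul, ← Real.exp_add]
                congr 1
                ring
          calc ‖f j‖ ^ 2 ≤ (M * ‖x‖ * Real.exp (-(j * h))) ^ 2 :=
                pow_le_pow_left₀ (norm_nonneg _) e1 2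
            _ = M ^ 2 * ‖x‖ ^ 2 * (Real.exp (-(2 * h))) ^ j := by
                rw [mul_pow, mul_pow, ← Real.exp_nat_mul, ← Real.exp_nat_mul]
                congr 2
                push_cast
                ring
      _ = M ^ 2 * ‖x‖ ^ 2 * ∑ j ∈ Finset.range N, (Real.exp (-(2 * h))) ^ j := by
          rw [Finset.mul_sum]
      _ ≤ M ^ 2 * ‖x‖ ^ 2 * (3 / (2 * h)) :=
          mul_le_mul_of_nonneg_left (geom_bound hh0 hh1 N) (by positivity)
  calc ∑ k ∈ Finset.Ico m N, ‖U (k * h) ((m : ℂ) • Gop hU h hh0.le x)‖ ^ 2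
      ≤ Real.exp (w + 1) ^ 2 * ∑ k ∈ Finset.range (2 * N),
        ‖∑ p ∈ (Finset.range N ×ˢ Finset.range N) with p.1 + p.2 = k, A p.1 (f p.2)‖ ^ 2 := hleft
    _ ≤ Real.exp (w + 1) ^ 2 * (C ^ 2 * (M ^ 2 * ‖x‖ ^ 2 * (3 / (2 * h)))) := by
        gcongr
        exact key.trans (by gcongr)
    _ = Real.exp (w + 1) ^ 2 * C ^ 2 * M ^ 2 * (3 / 2) * m * ‖x‖ ^ 2 := by
        rw [hh]
        field_simp

theorem tendsto_mean {U : ℝ → E →L[ℂ] E} (hU : IsSG U) (x : E) :
    Tendsto (fun m : ℕ => ((m + 1 : ℕ) : ℂ) • Gop hU (1 / ((m + 1 : ℕ) : ℝ)) (by positivity) x) atTop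
      (𝓝 x) := by
  have hc : Continuous fun s => U s x := hU.cont x
  have h1 : HasDerivAt (fun u : ℝ => ∫ s in (0 : ℝ)..u, U s x) (U 0 x) 0 :=
    intervalIntegral.integral_hasDerivAt_right (hc.intervalIntegrable _ _)
      (hc.stronglyMeasurableAtFilter _ _) hc.continuousAt
  rw [hU.zero_apply] at h1
  have h2 := hasDerivAt_iff_tendsto_slope.1 h1
  have h3 : Tendsto (fun m : ℕ => 1 / ((m + 1 : ℕ) : ℝ)) atTop (𝓝[≠] 0) := by
    refine tendsto_nhdsWithin_iff.2 ⟨?_, Eventually.of_forall fun m => ?_⟩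
    · have := tendsto_one_div_add_atTop_nhds_zero_nat (𝕜 := ℝ)
      simpa using this
    · simp only [mem_compl_iff, mem_singleton_iff]
      positivity
  refine (h2.comp h3).congr fun m => ?_
  simp only [Function.comp_apply, slope, vsub_eq_sub, sub_zero, intervalIntegral.integral_same]
  rw [Gop_apply]
  rw [← Complex.coe_smul]
  congr 1
  push_cast
  rw [one_div, inv_inv]

/-- Lower estimate of the sums. -/
theorem decay_est {U : ℝ → E →L[ℂ] E} (hU : IsSG U) {D : ℝ}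
    (hD : ∀ (m N : ℕ) (hm : 0 < m) (x : E),
      ∑ k ∈ Finset.Ico m N, ‖U (k * (1 / m : ℝ)) ((m : ℂ) • Gop hU (1 / m : ℝ) (by positivity) x)‖ ^ 2
        ≤ D * m * ‖x‖ ^ 2) (L q : ℕ) (hq : 1 ≤ q) (hqL : q ≤ L) {κ : ℝ} (_hκ0 : 0 ≤ κ)
    (hκ : ∀ s, 0 ≤ s → s ≤ (L : ℝ) - q → ‖U s‖ ≤ κ) (x : E) :
    ((L : ℝ) - q) * ‖U L x‖ ^ 2 ≤ κ ^ 2 * D * ‖x‖ ^ 2 := by
  have h1 : ∀ m : ℕ, ((L : ℝ) - q) *
      ‖U L (((m + 1 : ℕ) : ℂ) • Gop hU (1 / ((m + 1 : ℕ) : ℝ)) (by positivity) x)‖ ^ 2 ≤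
      κ ^ 2 * D * ‖x‖ ^ 2 := by
    intro m'
    set m : ℕ := m' + 1 with hm
    have hm0 : 0 < m := Nat.succ_pos _
    have hmr : (0 : ℝ) < m := by exact_mod_cast hm0
    set v : E := (m : ℂ) • Gop hU (1 / (m : ℝ)) (by positivity) x with hv
    have h2 := hD m (L * m) hm0 x
    have h3 : ∑ k ∈ Finset.Ico (q * m) (L * m), ‖U (k * (1 / m : ℝ)) v‖ ^ 2 ≤ D * m * ‖x‖ ^ 2 := by
      refine le_trans (Finset.sum_le_sum_of_subset_of_nonneg ?_ fun k _ _ => by positivity) h2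
      intro k hk
      rw [Finset.mem_Ico] at hk ⊢
      refine ⟨le_trans ?_ hk.1, hk.2⟩
      nlinarith
    have h4 : ∀ k ∈ Finset.Ico (q * m) (L * m), ‖U L v‖ ^ 2 ≤ κ ^ 2 * ‖U (k * (1 / m : ℝ)) v‖ ^ 2 := by
      intro k hk
      rw [Finset.mem_Ico] at hk
      have hk1 : (q : ℝ) * m ≤ k := by exact_mod_cast hk.1
      have hk2 : (k : ℝ) ≤ L * m := by exact_mod_cast hk.2.le
      have hk3 : (q : ℝ) ≤ k * (1 / m : ℝ) := by
        rw [mul_one_div, le_div_iff₀ hmr]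
        exact hk1
      have hk4 : (k : ℝ) * (1 / m : ℝ) ≤ L := by
        rw [mul_one_div, div_le_iff₀ hmr]
        exact hk2
      have h5 : U L v = U (L - k * (1 / m : ℝ)) (U (k * (1 / m : ℝ)) v) := by
        rw [← hU.add_apply (by linarith) (by positivity)]
        congr 2
        ring
      rw [h5, ← mul_pow]
      refine pow_le_pow_left₀ (norm_nonneg _) ?_ 2
      exact ContinuousLinearMap.le_of_opNorm_le _ (hκ _ (by linarith) (by linarith)) _
    have h6 : ((L : ℝ) - q) * m * ‖U L v‖ ^ 2 ≤ κ ^ 2 * (D * m * ‖x‖ ^ 2) := by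
      calc ((L : ℝ) - q) * m * ‖U L v‖ ^ 2 = ∑ _k ∈ Finset.Ico (q * m) (L * m), ‖U L v‖ ^ 2 := by
            rw [Finset.sum_const, Nat.card_Ico, nsmul_eq_mul, ← Nat.sub_mul, Nat.cast_mul,
              Nat.cast_sub hqL]
        _ ≤ ∑ k ∈ Finset.Ico (q * m) (L * m), κ ^ 2 * ‖U (k * (1 / m : ℝ)) v‖ ^ 2 :=
            Finset.sum_le_sum h4
        _ = κ ^ 2 * ∑ k ∈ Finset.Ico (q * m) (L * m), ‖U (k * (1 / m : ℝ)) v‖ ^ 2 := by
            rw [Finset.mul_sum]
        _ ≤ κ ^ 2 * (D * m * ‖x‖ ^ 2) := by gcongr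
    have h7 : (m : ℝ) * (((L : ℝ) - q) * ‖U L v‖ ^ 2) ≤ m * (κ ^ 2 * D * ‖x‖ ^ 2) := by
      calc _ = ((L : ℝ) - q) * m * ‖U L v‖ ^ 2 := by ring
        _ ≤ _ := h6
        _ = _ := by ring
    exact le_of_mul_le_mul_left h7 hmr
  have h2 : Tendsto (fun m : ℕ => ((L : ℝ) - q) *
      ‖U L (((m + 1 : ℕ) : ℂ) • Gop hU (1 / ((m + 1 : ℕ) : ℝ)) (by positivity) x)‖ ^ 2) atTop
      (𝓝 (((L : ℝ) - q) * ‖U L x‖ ^ 2)) :=
    ((((U L).continuous.tendsto x).comp (tendsto_mean hU x)).norm.pow 2).const_mul _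
  exact le_of_tendsto' h2 h1

/-- A weakly integrable semigroup on a Hilbert space is uniformly exponentially stable. -/
theorem stable {U : ℝ → E →L[ℂ] E} (hU : IsSG U) (hw : ∀ x y, WI U x y) :
    ∃ L : ℝ, 0 < L ∧ ‖U L‖ < 1 := by
  obtain ⟨C, hC⟩ := Vop_bounded hU hw
  obtain ⟨D, hD0, hD⟩ := main_est hU hC
  obtain ⟨M, hM, hMb⟩ := hU.bound_Icc 2
  -- boundedness
  have h1 : ∀ L : ℕ, 2 ≤ L → ‖U L‖ ≤ M * √D := by
    intro L hL
    refine ContinuousLinearMap.opNorm_le_bound _ (by positivity) fun x => ?_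
    have e1 := decay_est hU hD L (L - 1) (by omega) (by omega) (κ := M) (by linarith)
      (fun s hs0 hs1 => hMb s ⟨hs0, by
        rw [Nat.cast_sub (by omega)] at hs1
        push_cast at hs1
        linarith⟩) x
    have e2 : (L : ℝ) - ((L - 1 : ℕ) : ℝ) = 1 := by
      rw [Nat.cast_sub (by omega)]
      push_cast
      ring
    rw [e2, one_mul] at e1
    refine le_of_sq_le_sq ?_ (by positivity)
    calc ‖U L x‖ ^ 2 ≤ M ^ 2 * D * ‖x‖ ^ 2 := e1
      _ = (M * √D * ‖x‖) ^ 2 := by rw [mul_pow, mul_pow, Real.sq_sqrt hD0]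
  set K : ℝ := M * max 1 (M * √D) with hK
  have hK1 : 1 ≤ max 1 (M * √D) := le_max_left _ _
  have hK0 : 0 ≤ K := by positivity
  have h2 : ∀ s, 0 ≤ s → ‖U s‖ ≤ K := by
    intro s hs
    rcases le_or_gt s 2 with h | h
    · calc ‖U s‖ ≤ M := hMb s ⟨hs, h⟩
        _ = M * 1 := (mul_one _).symm
        _ ≤ K := mul_le_mul_of_nonneg_left hK1 (by linarith)
    · set n : ℕ := ⌊s⌋₊ with hn
      have e1 : (n : ℝ) ≤ s := Nat.floor_le hs
      have e2 : s < n + 1 := Nat.lt_floor_add_one s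
      have e3 : 2 ≤ n := Nat.le_floor (by exact_mod_cast h.le)
      have e4 : U s = U (s - n) * U n := by
        rw [← hU.add _ _ (by linarith) (by positivity)]
        congr 1
        ring
      rw [e4]
      calc ‖U (s - n) * U n‖ ≤ ‖U (s - n)‖ * ‖U n‖ := norm_mul_le _ _
        _ ≤ M * (M * √D) := mul_le_mul (hMb _ ⟨by linarith, by linarith⟩) (h1 n e3) (norm_nonneg _)
            (by linarith)
        _ ≤ K := mul_le_mul_of_nonneg_left (le_max_right _ _) (by linarith)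
  obtain ⟨L, hL⟩ := exists_nat_gt (K ^ 2 * D + 1)
  have hKD : 0 ≤ K ^ 2 * D := by positivity
  have hL1 : (1 : ℝ) < L := by linarith
  have hL1' : 1 < L := by exact_mod_cast hL1
  refine ⟨L, by linarith, ?_⟩
  set ρ : ℝ := √(K ^ 2 * D / ((L : ℝ) - 1)) with hρ
  have hρ1 : ρ < 1 := by
    rw [hρ, Real.sqrt_lt' one_pos, one_pow, div_lt_one (by linarith)]
    linarith
  refine lt_of_le_of_lt (ContinuousLinearMap.opNorm_le_bound _ (Real.sqrt_nonneg _) fun x => ?_) hρ1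
  have e1 := decay_est hU hD L 1 le_rfl hL1'.le hK0 (fun s hs _ => h2 s hs) x
  rw [Nat.cast_one] at e1
  refine le_of_sq_le_sq ?_ (by positivity)
  rw [mul_pow, Real.sq_sqrt (div_nonneg hKD (by linarith)), div_mul_eq_mul_div,
    le_div_iff₀ (by linarith), mul_comm]
  exact e1

/-- **Theorem A.** If all real numbers `≥ b` are in the resolvent set then `‖T_L‖ < e^{bL}` for some
`L > 0`. -/
theorem growth {T : ℝ → E →L[ℂ] E} (hT : IsSG T) {K K' : Set E} (hK : IsCone K)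
    (hpos : ∀ t, 0 ≤ t → Pos K (T t)) (hdual : DualNonneg K K')
    (hspan : Submodule.span ℂ K = ⊤) (hspan' : Submodule.span ℂ K' = ⊤) {b : ℝ}
    (hres : ∀ c : ℝ, b ≤ c → ∃ R, IsRes T (c : ℂ) R) :
    ∃ L : ℝ, 0 < L ∧ ‖T L‖ < Real.exp (b * L) := by
  have hU := isSG_resc hT b
  obtain ⟨L, hL, hlt⟩ := stable hU (WI.all hU hspan hspan' (WI_of_res hT hK hpos hdual hres))
  refine ⟨L, hL, ?_⟩
  rw [norm_resc] at hlt
  have h1 : Real.exp (-b * L) = (Real.exp (b * L))⁻¹ := by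
    rw [← Real.exp_neg]
    congr 1
    ring
  rw [h1, ← div_eq_inv_mul, div_lt_one (Real.exp_pos _)] at hlt
  exact hlt

end Pool.Agent.U183.SG
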