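import Pool.Agent.U183.SG.Res

set_option autoImplicit false
set_option linter.unusedSectionVars false

namespace Pool.Agent.U183.SG

open Filter Topology Set MeasureTheory

variable {E : Type*} [NormedAddCommGroup E] [InnerProductSpace ℂ E] [CompleteSpace E]

/-- Weak integrability of the orbit. -/
def WI (U : ℝ → E →L[ℂ] E) (x y : E) : Prop :=
  ∃ C : ℝ, ∀ t : ℝ, 0 ≤ t → ∫ s in (0 : ℝ)..t, ‖inner ℂ y (U s x)‖ ≤ C

theorem continuous_pair {U : ℝ → E →L[ℂ] E} (hU : IsSG U) (x y : E) :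
    Continuous fun s => ‖inner ℂ y (U s x)‖ :=
  (continuous_const.inner (hU.cont x)).norm

theorem WI.mono {U : ℝ → E →L[ℂ] E} (hU : IsSG U) {x y x' y' x'' y'' : E} {c : ℝ}
    (h1 : WI U x' y') (h2 : WI U x'' y'') (hc : 0 ≤ c)
    (h : ∀ s, ‖inner ℂ y (U s x)‖ ≤ c * (‖inner ℂ y' (U s x')‖ + ‖inner ℂ y'' (U s x'')‖)) :
    WI U x y := by
  obtain ⟨C1, hC1⟩ := h1
  obtain ⟨C2, hC2⟩ := h2
  refine ⟨c * (C1 + C2), fun t ht => ?_⟩
  have e1 := continuous_pair hU x y
  have e2 := continuous_pair hU x' y'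
  have e3 := continuous_pair hU x'' y''
  calc ∫ s in (0 : ℝ)..t, ‖inner ℂ y (U s x)‖
      ≤ ∫ s in (0 : ℝ)..t, c * (‖inner ℂ y' (U s x')‖ + ‖inner ℂ y'' (U s x'')‖) :=
        intervalIntegral.integral_mono_on ht (e1.intervalIntegrable _ _)
          (((e2.add e3).const_mul c).intervalIntegrable _ _) fun s _ => h s
    _ = c * ((∫ s in (0 : ℝ)..t, ‖inner ℂ y' (U s x')‖) +
          ∫ s in (0 : ℝ)..t, ‖inner ℂ y'' (U s x'')‖) := by
        rw [intervalIntegral.integral_const_mul,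
          intervalIntegral.integral_add (e2.intervalIntegrable _ _) (e3.intervalIntegrable _ _)]
    _ ≤ c * (C1 + C2) := by
        gcongr
        · exact hC1 t ht
        · exact hC2 t ht

theorem WI.add_left {U : ℝ → E →L[ℂ] E} (hU : IsSG U) {x x' y : E} (h : WI U x y)
    (h' : WI U x' y) : WI U (x + x') y :=
  WI.mono hU h h' zero_le_one fun s => by
    rw [map_add, inner_add_right, one_mul]
    exact norm_add_le _ _

theorem WI.add_right {U : ℝ → E →L[ℂ] E} (hU : IsSG U) {x y y' : E} (h : WI U x y)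
    (h' : WI U x y') : WI U x (y + y') :=
  WI.mono hU h h' zero_le_one fun s => by
    rw [inner_add_left, one_mul]
    exact norm_add_le _ _

theorem WI.smul_left {U : ℝ → E →L[ℂ] E} (hU : IsSG U) {x y : E} (c : ℂ) (h : WI U x y) :
    WI U (c • x) y :=
  WI.mono hU h h (norm_nonneg c) fun s => by
    rw [map_smul, inner_smul_right, norm_mul]
    gcongr
    linarith [norm_nonneg (inner ℂ y (U s x))]

theorem WI.smul_right {U : ℝ → E →L[ℂ] E} (hU : IsSG U) {x y : E} (c : ℂ) (h : WI U x y) :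
    WI U x (c • y) :=
  WI.mono hU h h (norm_nonneg c) fun s => by
    rw [inner_smul_left, norm_mul, RCLike.norm_conj]
    gcongr
    linarith [norm_nonneg (inner ℂ y (U s x))]

theorem WI.zero_left {U : ℝ → E →L[ℂ] E} (y : E) : WI U 0 y :=
  ⟨0, fun t _ => by simp⟩

theorem WI.zero_right {U : ℝ → E →L[ℂ] E} (x : E) : WI U x 0 :=
  ⟨0, fun t _ => by simp⟩

theorem WI.all {U : ℝ → E →L[ℂ] E} (hU : IsSG U) {K K' : Set E}
    (hK : Submodule.span ℂ K = ⊤) (hK' : Submodule.span ℂ K' = ⊤)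
    (h : ∀ x ∈ K, ∀ y ∈ K', WI U x y) (x y : E) : WI U x y := by
  have h1 : ∀ y ∈ K', WI U x y := by
    intro y hy
    have hx : x ∈ Submodule.span ℂ K := by rw [hK]; exact Submodule.mem_top
    induction hx using Submodule.span_induction with
    | mem x hx => exact h x hx y hy
    | zero => exact WI.zero_left y
    | add a b _ _ ha hb => exact ha.add_left hU hb
    | smul c a _ ha => exact ha.smul_left hU c
  have hy : y ∈ Submodule.span ℂ K' := by rw [hK']; exact Submodule.mem_top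
  induction hy using Submodule.span_induction with
  | mem y hy => exact h1 y hy
  | zero => exact WI.zero_right x
  | add a b _ _ ha hb => exact ha.add_right hU hb
  | smul c a _ ha => exact ha.smul_right hU c

/-- The rescaled semigroup. -/
noncomputable def resc (T : ℝ → E →L[ℂ] E) (b : ℝ) : ℝ → E →L[ℂ] E :=
  fun s => Complex.exp (-(b : ℂ) * s) • T s

theorem resc_apply (T : ℝ → E →L[ℂ] E) (b s : ℝ) (x : E) :
    resc T b s x = Complex.exp (-(b : ℂ) * s) • T s x := rfl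

theorem isSG_resc {T : ℝ → E →L[ℂ] E} (hT : IsSG T) (b : ℝ) : IsSG (resc T b) where
  zero := by
    ext x
    rw [resc_apply, hT.zero_apply]
    simp
  add s t hs ht := by
    ext x
    change resc T b (s + t) x = resc T b s (resc T b t x)
    rw [resc_apply, resc_apply, resc_apply, hT.add_apply hs ht, map_smul, smul_smul,
      ← Complex.exp_add]
    congr 2
    push_cast
    ring
  cont v := (continuous_cexp _).smul (hT.cont v)

theorem norm_resc (T : ℝ → E →L[ℂ] E) (b s : ℝ) : ‖resc T b s‖ = Real.exp (-b * s) * ‖T s‖ := by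
  rw [resc, norm_smul, Complex.norm_exp]
  congr 2
  simp

/-- A set of functionals which are nonnegative on the cone. -/
def DualNonneg (K K' : Set E) : Prop :=
  ∀ x ∈ K, ∀ y ∈ K', (inner ℂ y x).im = 0 ∧ 0 ≤ (inner ℂ y x).re

/-- Weak integrability on the cones. -/
theorem WI_of_res {T : ℝ → E →L[ℂ] E} (hT : IsSG T) {K K' : Set E} (hK : IsCone K)
    (hpos : ∀ t, 0 ≤ t → Pos K (T t)) (hdual : DualNonneg K K') {b : ℝ}
    (hres : ∀ c : ℝ, b ≤ c → ∃ R, IsRes T (c : ℂ) R) :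
    ∀ x ∈ K, ∀ y ∈ K', WI (resc T b) x y := by
  intro x hx y hy
  obtain ⟨R, hR⟩ := hres b le_rfl
  have hRpos := pos_res hT hK hpos hres b le_rfl R hR
  have hU := isSG_resc hT b
  have hUpos : ∀ s, 0 ≤ s → resc T b s x ∈ K := by
    intro s hs
    rw [resc_apply]
    have h1 : Complex.exp (-(b : ℂ) * s) = ((Real.exp (-b * s) : ℝ) : ℂ) := by
      push_cast
      rfl
    rw [h1]
    exact hK.smul _ (Real.exp_pos _).le _ (hpos s hs x hx)
  refine ⟨(inner ℂ y (R x)).re, fun t ht => ?_⟩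
  have h1 : ∫ s in (0 : ℝ)..t, ‖inner ℂ y (resc T b s x)‖ =
      ∫ s in (0 : ℝ)..t, (inner ℂ y (resc T b s x)).re := by
    refine intervalIntegral.integral_congr fun s hs => ?_
    rw [uIcc_of_le ht] at hs
    obtain ⟨h2, h3⟩ := hdual _ (hUpos s hs.1) y hy
    have h4 : inner ℂ y (resc T b s x) = (((inner ℂ y (resc T b s x)).re : ℝ) : ℂ) :=
      Complex.ext (by simp) (by simp [h2])
    rw [h4, Complex.norm_real, Real.norm_of_nonneg h3]
    simp
  rw [h1]
  have h5 : ∫ s in (0 : ℝ)..t, (inner ℂ y (resc T b s x)).re =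
      (inner ℂ y (B T hT b t ht x)).re := by
    have h6 : IntervalIntegrable (fun s => resc T b s x) volume 0 t :=
      (hU.cont x).intervalIntegrable _ _
    have h7 := (Complex.reCLM.comp ((innerSL ℂ y).restrictScalars ℝ)).intervalIntegral_comp_comm h6
    exact h7
  rw [h5]
  have h6 := B_gen hT b t ht (hR.1 x)
  rw [sub_sub_cancel] at h6
  rw [h6, inner_sub_right, Complex.sub_re, sub_le_self_iff]
  have h7 : Complex.exp (-(b : ℂ) * t) • T t (R x) ∈ K := by
    have h1 : Complex.exp (-(b : ℂ) * t) = ((Real.exp (-b * t) : ℝ) : ℂ) := by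
      push_cast
      rfl
    rw [h1]
    exact hK.smul _ (Real.exp_pos _).le _ (hpos t ht _ (hRpos x hx))
  exact (hdual _ h7 y hy).2

/-- `∫_0^h U_s ds`. -/
noncomputable def Gop {U : ℝ → E →L[ℂ] E} (hU : IsSG U) (h : ℝ) (hh : 0 ≤ h) : E →L[ℂ] E :=
  J U hU (fun _ => 1) continuous_const 0 h le_rfl hh

theorem Gop_apply {U : ℝ → E →L[ℂ] E} (hU : IsSG U) (h : ℝ) (hh : 0 ≤ h) (x : E) :
    Gop hU h hh x = ∫ s in (0 : ℝ)..h, U s x := by
  rw [Gop, J_apply]
  simp only [one_smul]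

theorem norm_inner_Gop_le {U : ℝ → E →L[ℂ] E} (hU : IsSG U) (h : ℝ) (hh : 0 ≤ h) (n : ℕ)
    (x y : E) : ‖inner ℂ y (U (n * h) (Gop hU h hh x))‖ ≤
      ∫ s in (n * h : ℝ)..((n + 1 : ℕ) * h : ℝ), ‖inner ℂ y (U s x)‖ := by
  have h1 : inner ℂ y (U (n * h) (Gop hU h hh x)) = ∫ s in (0 : ℝ)..h, inner ℂ y (U (s + n * h) x) := by
    rw [Gop_apply]
    have h2 : IntervalIntegrable (fun s => U s x) volume 0 h := (hU.cont x).intervalIntegrable _ _
    have h3 := ((innerSL ℂ y).comp (U (n * h))).intervalIntegral_comp_comm h2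
    refine h3.symm.trans ?_
    refine intervalIntegral.integral_congr fun s hs => ?_
    rw [uIcc_of_le hh] at hs
    change inner ℂ y (U (n * h) (U s x)) = inner ℂ y (U (s + n * h) x)
    rw [add_comm, hU.add_apply (by positivity) hs.1]
  rw [h1]
  refine (intervalIntegral.norm_integral_le_integral_norm hh).trans (le_of_eq ?_)
  rw [intervalIntegral.integral_comp_add_right (fun s => ‖inner ℂ y (U s x)‖) (n * h : ℝ)]
  congr 1
  · ring
  · push_cast; ring

/-- The index set of the family of operators. -/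
structure Idx where
  N : ℕ
  h : ℝ
  hh : 0 ≤ h
  c : ℕ → ℂ
  hc : ∀ n, ‖c n‖ ≤ 1

/-- The operators `∑_{n<N} c_n ∫_{nh}^{(n+1)h} U_s ds`. -/
noncomputable def Vop {U : ℝ → E →L[ℂ] E} (hU : IsSG U) (i : Idx) : E →L[ℂ] E :=
  ∑ n ∈ Finset.range i.N, i.c n • (U (n * i.h) * Gop hU i.h i.hh)

theorem norm_inner_Vop_le {U : ℝ → E →L[ℂ] E} (hU : IsSG U) (i : Idx) (x y : E) :
    ‖inner ℂ y (Vop hU i x)‖ ≤ ∫ s in (0 : ℝ)..(i.N * i.h : ℝ), ‖inner ℂ y (U s x)‖ := by
  have hc := continuous_pair hU x y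
  have h1 : inner ℂ y (Vop hU i x) =
      ∑ n ∈ Finset.range i.N, i.c n * inner ℂ y (U (n * i.h) (Gop hU i.h i.hh x)) := by
    rw [Vop, sum_apply, inner_sum]
    refine Finset.sum_congr rfl fun n _ => ?_
    change inner ℂ y (i.c n • (U (n * i.h) (Gop hU i.h i.hh x))) = _
    rw [inner_smul_right]
  rw [h1]
  refine (norm_sum_le _ _).trans ?_
  have h2 : ∫ s in (0 : ℝ)..(i.N * i.h : ℝ), ‖inner ℂ y (U s x)‖ =
      ∑ n ∈ Finset.range i.N, ∫ s in (n * i.h : ℝ)..((n + 1 : ℕ) * i.h : ℝ),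
        ‖inner ℂ y (U s x)‖ := by
    rw [intervalIntegral.sum_integral_adjacent_intervals (a := fun n : ℕ => (n * i.h : ℝ))
      fun n _ => hc.intervalIntegrable _ _]
    simp
  rw [h2]
  refine Finset.sum_le_sum fun n _ => ?_
  rw [norm_mul]
  calc ‖i.c n‖ * ‖inner ℂ y (U (n * i.h) (Gop hU i.h i.hh x))‖
      ≤ 1 * ‖inner ℂ y (U (n * i.h) (Gop hU i.h i.hh x))‖ := by
        gcongr
        exact i.hc n
    _ ≤ _ := by
        rw [one_mul]
        exact norm_inner_Gop_le hU i.h i.hh n x y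

/-- Uniform boundedness. -/
theorem Vop_bounded {U : ℝ → E →L[ℂ] E} (hU : IsSG U) (hw : ∀ x y, WI U x y) :
    ∃ C : ℝ, ∀ i : Idx, ‖Vop hU i‖ ≤ C := by
  refine banach_steinhaus fun x => ?_
  have h1 : ∀ y : E, ∃ C : ℝ, ∀ i : Idx, ‖innerSL ℂ (Vop hU i x) y‖ ≤ C := by
    intro y
    obtain ⟨C, hC⟩ := hw x y
    refine ⟨C, fun i => ?_⟩
    rw [innerSL_apply_apply, ← norm_inner_symm]
    exact (norm_inner_Vop_le hU i x y).trans (hC _ (mul_nonneg (Nat.cast_nonneg _) i.hh))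
  obtain ⟨C, hC⟩ := banach_steinhaus h1
  refine ⟨C, fun i => ?_⟩
  have := hC i
  rwa [innerSL_apply_norm] at this

end Pool.Agent.U183.SG
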